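import Pool.Agent.T2H45.SeqMain

set_option autoImplicit false

namespace Pool.Agent.Results.MP_a9eae2_co.BalancedDeBruijn

/-- `IsGenDeBruijn l k a`: the cyclic sequence `a` of length `n` (indices read modulo `n`, that is,
in `ZMod n`) has every word of length `l` at no more than `k` starting positions. -/
def IsGenDeBruijn {A : Type*} {n : ℕ} (l k : ℕ) (a : ZMod n → A) : Prop :=
  ∀ w : Fin l → A, Nat.card {i : ZMod n // ∀ j : Fin l, a (i + (j : ℕ)) = w j} ≤ k

/-- `IsBalanced a`: every letter occurs exactly `n / |A|` times in the cyclic sequence `a` of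
length `n`. -/
def IsBalanced {A : Type*} {n : ℕ} (a : ZMod n → A) : Prop :=
  ∀ x : A, (Nat.card {i : ZMod n // a i = x} : ℚ) = (n : ℚ) / (Nat.card A : ℚ)

open Pool.Agent.T2H45 Finset

/-- For every finite alphabet `A` with at least three letters and all positive `n`, `l`, `k`, a
balanced generalized de Bruijn sequence over `A` with parameters `(n, l, k)` exists if and only if
`|A|` divides `n` and `k ≥ n / |A| ^ l`. -/
theorem result (A : Type*) [Finite A] (hA : 3 ≤ Nat.card A) (n l k : ℕ) (hn : 0 < n) (hl : 0 < l)
    (_hk : 0 < k) :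
    (∃ a : ZMod n → A, IsGenDeBruijn l k a ∧ IsBalanced a) ↔
      (Nat.card A ∣ n ∧ (n : ℚ) / (Nat.card A : ℚ) ^ l ≤ (k : ℚ)) := by
  classical
  have hFin : Fintype A := Fintype.ofFinite A
  have hne : NeZero n := ⟨by omega⟩
  obtain ⟨m, hm⟩ : ∃ m, m = Nat.card A := ⟨_, rfl⟩
  rw [← hm] at hA ⊢
  have hmne : NeZero m := ⟨by omega⟩
  have hmq : (0 : ℚ) < m := by exact_mod_cast (by omega : 0 < m)
  constructor
  · rintro ⟨a, h1, h2⟩
    constructor
    · -- balance forces divisibility
      have hpos : 0 < Nat.card A := by omega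
      have hneA : Nonempty A := (Nat.card_pos_iff.1 hpos).1
      obtain ⟨x⟩ := hneA
      have h3 := h2 x
      rw [← hm] at h3
      rw [eq_div_iff hmq.ne'] at h3
      have h4 : Nat.card {i : ZMod n // a i = x} * m = n := by exact_mod_cast h3
      exact ⟨_, by rw [mul_comm]; exact h4.symm⟩
    · rw [div_le_iff₀ (pow_pos hmq l)]
      have h3 : n = ∑ w : Fin l → A, Nat.card {i : ZMod n // ∀ j : Fin l, a (i + (j : ℕ)) = w j} := by
        have e1 : n = (univ : Finset (ZMod n)).card := by rw [card_univ, ZMod.card]
        rw [Finset.card_eq_sum_card_fiberwise (f := fun i : ZMod n => fun j : Fin l => a (i + (j : ℕ)))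
          (t := (univ : Finset (Fin l → A))) (fun x _ => by simp)] at e1
        refine e1.trans (Finset.sum_congr rfl fun w _ => ?_)
        rw [Nat.card_eq_fintype_card, Fintype.card_subtype]
        congr 1
        apply filter_congr
        intro i _
        exact funext_iff
      have h4 : n ≤ ∑ w : Fin l → A, k := by
        calc n = _ := h3
          _ ≤ _ := Finset.sum_le_sum fun w _ => h1 w
      rw [Finset.sum_const, card_univ, Fintype.card_fun, Fintype.card_fin, smul_eq_mul,
        ← Nat.card_eq_fintype_card, ← hm] at h4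
      rw [mul_comm]
      exact_mod_cast h4
  · rintro ⟨h1, h2⟩
    rw [div_le_iff₀ (pow_pos hmq l)] at h2
    have h3 : n ≤ k * m ^ l := by exact_mod_cast h2
    obtain ⟨l', rfl⟩ : ∃ l', l = l' + 1 := ⟨l - 1, by omega⟩
    obtain ⟨a, ha1, ha2⟩ := seqOK_all hA l' n k h1 h3
    have e : Nonempty (ZMod m ≃ A) := by
      rw [← Fintype.card_eq, ZMod.card, hm, Nat.card_eq_fintype_card]
    obtain ⟨e⟩ := e
    refine ⟨fun i => e (a i), ?_, ?_⟩
    · intro w
      refine le_trans (le_of_eq ?_) (ha1 fun j => e.symm (w j))
      rw [Nat.card_eq_fintype_card, Fintype.card_subtype]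
      congr 1
      apply filter_congr
      intro i _
      refine forall_congr' fun j => ?_
      rw [Equiv.eq_symm_apply]
    · intro x
      rw [← hm, eq_div_iff hmq.ne']
      have h4 := ha2 (e.symm x)
      rw [Nat.card_eq_fintype_card, Fintype.card_subtype]
      have h5 : (univ.filter fun i : ZMod n => e (a i) = x) =
          univ.filter fun i : ZMod n => a i = e.symm x := by
        apply filter_congr
        intro i _
        rw [Equiv.eq_symm_apply]
      rw [h5, mul_comm]
      exact_mod_cast h4

end Pool.Agent.Results.MP_a9eae2_co.BalancedDeBruijn
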